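import Mathlib
import Pool.Agent.H89.CN2

set_option autoImplicit false

namespace Pool.Agent.Results.MP_60ed70_an.Counter

open scoped Manifold ContDiff

/-- Complex Euclidean space of dimension `n + 1`. -/
abbrev E (n : ℕ) : Type := EuclideanSpace ℂ (Fin (n + 1))

/-- Second derivative of `v` at `p` along the real line with direction `ξ`. -/
noncomputable def d2 {n : ℕ} (v : E n → ℝ) (p ξ : E n) : ℝ :=
  deriv (deriv fun t : ℝ => v (p + t • ξ)) 0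

/-- The Levi form of `v` at `p` evaluated on `ξ`. -/
noncomputable def levi {n : ℕ} (v : E n → ℝ) (p ξ : E n) : ℝ :=
  (d2 v p ξ + d2 v p (Complex.I • ξ)) / 4

/-- The spherical hat. -/
def hat (n : ℕ) (r : ℝ) : Set (E n) := {z | ‖z‖ = 1 ∧ r ≤ (z 0).re}

/-- The filled spherical hat. -/
def fill (n : ℕ) (r : ℝ) : Set (E n) := {z | ‖z‖ ≤ 1 ∧ r ≤ (z 0).re}

variable (n : ℕ) {M : Type} [TopologicalSpace M] [ChartedSpace (E n) M]

/-- `u` read in the chart at `x`. -/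
noncomputable def loc (u : M → ℝ) (x : M) : E n → ℝ := u ∘ (chartAt (E n) x).symm

/-- `u` is smooth and plurisubharmonic on `W`. -/
def SmoothPsh (u : M → ℝ) (W : Set M) : Prop :=
  ∀ x ∈ W, ContDiffAt ℝ ∞ (loc n u x) (chartAt (E n) x x) ∧
    ∀ ξ, 0 ≤ levi (loc n u x) (chartAt (E n) x x) ξ

/-- The Levi form of `u` at `x` is positive definite. -/
def StrictAt (u : M → ℝ) (x : M) : Prop :=
  ∀ ξ, ξ ≠ 0 → 0 < levi (loc n u x) (chartAt (E n) x x) ξ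

/-- The core. -/
def core (K : Set M) : Set M :=
  {x | x ∈ K ∧ ¬ ∃ (W : Set M) (u : M → ℝ), IsOpen W ∧ K ⊆ W ∧ SmoothPsh n u W ∧ StrictAt n u x}

/-- `K''` arises from `K'` by a spherical cut. -/
def Cut (K' K'' : Set M) : Prop :=
  IsCompact K' ∧ IsCompact K'' ∧ ∃ (r : ℝ) (U : Set (E n)) (Φ : E n → M),
    0 < r ∧ r < 1 ∧ IsOpen U ∧ fill n r ⊆ U ∧ Set.InjOn Φ U ∧
    MDifferentiableOn 𝓘(ℂ, E n) 𝓘(ℂ, E n) Φ U ∧ Disjoint (Φ '' hat n r) K' ∧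
    K'' = K' \ Φ '' interior (fill n r)

/-- The nucleus. -/
def nucleus (K : Set M) : Set M := ⋂₀ {K' | Relation.ReflTransGen (Cut n) K K'}

open Pool.Agent.H89.CN in
theorem result : ∃ (M : Type) (_ : TopologicalSpace M) (_ : T2Space M)
    (_ : SecondCountableTopology M) (_ : ChartedSpace (E 1) M) (_ : IsManifold 𝓘(ℂ, E 1) ω M)
    (K : Set M), IsCompact K ∧ nucleus 1 K = K ∧ ¬ nucleus 1 K ⊆ core 1 K := by
  letI iC : ChartedSpace (E 1) MM := (inferInstance : ChartedSpace E2 MM)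
  have iM : IsManifold 𝓘(ℂ, E 1) ω MM := (inferInstance : IsManifold 𝓘(ℂ, E2) ω MM)
  have hn : nucleus 1 KK = KK := by
    apply Set.Subset.antisymm (Set.sInter_subset_of_mem Relation.ReflTransGen.refl)
    apply Set.subset_sInter
    intro K' hK'
    have : K' = KK := by
      induction hK' with
      | refl => rfl
      | tail _ h ih =>
        subst ih
        obtain ⟨-, -, r, U, Φ, h1, -, h2, h3, -, h4, h5, rfl⟩ := h
        exact (nocut h1 h2 h3 h4 h5).sdiff_eq_left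
    rw [this]
  refine ⟨MM, inferInstance, inferInstance, inferInstance, iC, iM, KK,
    KK_compact, hn, fun h => ?_⟩
  rw [hn] at h
  have hI : ∀ (ξ : E2) (i : Fin 2), ‖(Complex.I • ξ) i‖ = ‖ξ i‖ := fun ξ i => by simp
  have hth : ∀ x : ℝ, 0 ≤ x⁻¹ ^ 2 * th x := fun x =>
    mul_nonneg (sq_nonneg _) (expNegInvGlue.nonneg x)
  have l0 : ∀ m ∈ W0, ∀ ξ : E2, levi (loc 1 uu m) (chartAt E2 m m) ξ
      = (Pool.Agent.H89.CN.d2 v0 (c0 m) ξ + Pool.Agent.H89.CN.d2 v0 (c0 m) (Complex.I • ξ)) / 4 := by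
    intro m hm ξ
    have := fun ξ => d2_congr (ev0 hm) ξ
    rw [← chart_eq m hm.1, ← this, ← this]
    rfl
  let x0 : MM := (sinv 0, 0)
  have hx0 : x0 ∈ KK := Or.inr ⟨rfl, by simp [x0]⟩
  have hc : c0 x0 = 0 := by
    show (!₂[sto (sinv 0), 0] : E2) = 0
    rw [sto_sinv]
    ext i
    fin_cases i <;> rfl
  have hW : x0 ∈ W0 := ⟨sinv_ne 0, by
    show ‖c0 x0 0‖ ^ 2 < 1 / 8
    rw [hc]
    simp⟩
  refine (h hx0).2 ⟨W0 ∪ W1, uu, W0_open.union W1_open, KK_sub, ?_, ?_⟩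
  · rintro m (hm | hm)
    · refine ⟨cd0.contDiffAt.congr_of_eventuallyEq (ev0 hm), fun ξ => ?_⟩
      rw [l0 m hm]
      have hp : ‖c0 m 0‖ ^ 2 ≤ 1 / 4 := by
        have : ‖c0 m 0‖ ^ 2 < 1 / 8 := hm.2
        linarith
      have a := fun ξ : E2 => le_trans (by have := hth (‖c0 m 0‖ ^ 2 - ‖c0 m 1‖ ^ 2 + 1 / 4); positivity)
        (d2v0 (c0 m) ξ hp)
      have a1 : (0 : ℝ) ≤ _ := a ξ
      have a2 : (0 : ℝ) ≤ _ := a (Complex.I • ξ)
      linarith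
    · refine ⟨cd1.contDiffAt.congr_of_eventuallyEq (ev1 hm), fun ξ => ?_⟩
      have := fun ξ => (d2_congr (ev1 hm) ξ).trans (d2v1 _ ξ)
      show 0 ≤ (Pool.Agent.H89.CN.d2 (uu ∘ (chartAt E2 m).symm) (chartAt E2 m m) ξ +
        Pool.Agent.H89.CN.d2 (uu ∘ (chartAt E2 m).symm) (chartAt E2 m m) (Complex.I • ξ)) / 4
      rw [this, this]
      positivity
  · intro ξ hξ
    rw [l0 x0 hW, hc]
    have a1 := d2v0 0 ξ (by simp)
    have a2 := d2v0 0 (Complex.I • ξ) (by simp)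
    rw [hI, hI] at a2
    have e : (0 : ℝ) < (‖(0 : E2) 0‖ ^ 2 - ‖(0 : E2) 1‖ ^ 2 + 1 / 4)⁻¹ ^ 2 *
        th (‖(0 : E2) 0‖ ^ 2 - ‖(0 : E2) 1‖ ^ 2 + 1 / 4) := by
      apply mul_pos (by simp)
      exact expNegInvGlue.pos_of_pos (by simp)
    generalize (‖(0 : E2) 0‖ ^ 2 - ‖(0 : E2) 1‖ ^ 2 + 1 / 4)⁻¹ ^ 2 *
        th (‖(0 : E2) 0‖ ^ 2 - ‖(0 : E2) 1‖ ^ 2 + 1 / 4) = c at a1 a2 e
    have e2 : 0 < ‖ξ 0‖ ^ 2 + ‖ξ 1‖ ^ 2 := by
      have := EuclideanSpace.norm_sq_eq ξ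
      rw [Fin.sum_univ_two] at this
      exact this ▸ pow_pos (norm_pos_iff.2 hξ) 2
    have e3 : 0 < 2 * ‖ξ 1‖ ^ 2 + 2 * c * ‖ξ 0‖ ^ 2 := by
      rcases (sq_nonneg ‖ξ 0‖).eq_or_lt with h0 | h0
      · rw [← h0] at e2 ⊢
        linarith
      · positivity
    linarith

end Pool.Agent.Results.MP_60ed70_an.Counter
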